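import Pool.Agent.Y142.Split

/-!
# Characters with algebraic values at the Frobenius elements
-/

namespace Pool.Agent.W5h89.SSQ

open NumberField
open Pool.Agent.Y142 Pool.Agent.W569.FM

variable {ℓ : ℕ} [hℓ : Fact ℓ.Prime]

/-- A character `δ` of the absolute Galois group of `ℚ` whose values at the Frobenius elements are
algebraic integers with all conjugates of absolute value `√(q ^ D)`: the square of `δ` is potentially
the power with exponent `D` of the character `c`. -/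
theorem exists_subgroup (δ c : GF ℚ →* ℚ_[ℓ]ˣ) (hδ : Continuous fun g => (δ g : ℚ_[ℓ]))
    (hc : Continuous fun g => (c g : ℚ_[ℓ])) {D B : ℕ}
    (h : ∀ q : ℕ, B < q → q.Prime → ∀ (P : Ideal (OO ℚ)) (σ : GF ℚ), P.IsMaximal → (q : OO ℚ) ∈ P →
      FrobAt q P σ → (c σ⁻¹ : ℚ_[ℓ]) = q ∧ Pure ((q : ℝ) ^ D) (δ σ⁻¹ : ℚ_[ℓ])) :
    ∃ Δ : Subgroup (GF ℚ), Δ.FiniteIndex ∧ ∀ g ∈ Δ, δ g ^ 2 = c g ^ D := by
  classical
  obtain ⟨n, hn, hrel⟩ := char_main δ c hδ hc (w := 1) (d := D) one_pos (by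
    intro S
    obtain ⟨q, hq, hqB, P, g, hP, hqP, hg, -⟩ :=
      exists_frob_core ⊤ isOpen_univ (max B (S.sup id))
    obtain ⟨h1, R, h2, h3, h4⟩ := h q (lt_of_le_of_lt (le_max_left _ _) hqB) hq P g hP hqP hg
    refine ⟨q, hq, fun hS => ?_, g⁻¹, by rw [pow_one]; exact h1, R, h2, h3, by
      rw [one_mul]; exact h4⟩
    have h5 : id q ≤ S.sup id := Finset.le_sup (f := id) hS
    have h6 := lt_of_le_of_lt (h5.trans (le_max_right B _)) hqB
    exact absurd h6 (lt_irrefl _))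
  let f : GF ℚ →* ℚ_[ℓ]ˣ := δ ^ 2 * (c ^ D)⁻¹
  have hf : ∀ g, f g = δ g ^ 2 * (c g ^ D)⁻¹ := fun g => rfl
  have hfn : ∀ g, f g ∈ rootsOfUnity n ℚ_[ℓ] := by
    intro g
    rw [mem_rootsOfUnity, hf, mul_pow, inv_pow, ← pow_mul, ← pow_mul, hrel g, mul_inv_cancel]
  have : NeZero n := ⟨hn.ne'⟩
  have hfin : Finite f.range := by
    have h1 : (f.range : Set ℚ_[ℓ]ˣ) ⊆ (rootsOfUnity n ℚ_[ℓ] : Set ℚ_[ℓ]ˣ) := by
      rintro _ ⟨g, rfl⟩
      exact hfn g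
    have h2 : Finite (rootsOfUnity n ℚ_[ℓ]) := inferInstance
    exact Finite.Set.subset _ h1
  refine ⟨f.ker, Subgroup.finiteIndex_ker f, fun g hg => ?_⟩
  rw [MonoidHom.mem_ker, hf, mul_inv_eq_one] at hg
  exact hg

end Pool.Agent.W5h89.SSQ
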