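import Mathlib

/-!
# Frobenius elements and purity: definitions
-/

namespace Pool.Agent.W5h89.SSQ

open NumberField Polynomial

/-- `σ` is a Frobenius element at the prime number `q`: there is a maximal ideal `Q` with `q ∈ Q` of
the ring of all algebraic integers such that `σ x ≡ x ^ q` modulo `Q` for all `x`. -/
def IsFrobenius (q : ℕ) (σ : Gal(AlgebraicClosure ℚ/ℚ)) : Prop :=
  ∃ Q : Ideal (𝓞 (AlgebraicClosure ℚ)), Q.IsMaximal ∧ (q : 𝓞 (AlgebraicClosure ℚ)) ∈ Q ∧
    ∀ x : 𝓞 (AlgebraicClosure ℚ), σ • x - x ^ q ∈ Q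

section

variable {K M Γ : Type*} [Field K] [AddCommGroup M] [Module K M]

/-- On the subspace `G` the operator `T` is annihilated by a monic polynomial with integral
coefficients all of whose complex roots have the absolute value `√(q ^ i)`. -/
def PureOn (T : M →ₗ[K] M) (G : Submodule K M) (q i : ℕ) : Prop :=
  ∃ P : ℤ[X], P.Monic ∧ (∀ z : ℂ, aeval z P = 0 → ‖z‖ ^ 2 = (q : ℝ) ^ i) ∧
    ∀ x ∈ G, aeval T P x = 0

/-- The action `ρ` is continuous, for the identification `ι` of the coefficient field with the field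
of `ℓ`-adic numbers. -/
def ContinuousFor {ℓ : ℕ} [Fact ℓ.Prime] (ι : K ≃+* ℚ_[ℓ]) [TopologicalSpace Γ]
    (ρ : Γ → M →ₗ[K] M) : Prop :=
  ∀ (φ : M →ₗ[K] K) (x : M), Continuous fun g => ι (φ (ρ g x))

end

end Pool.Agent.W5h89.SSQ
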