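import Pool.Agent.Y142.Pure
import Pool.Agent.W5h89.SSP.Rep
import Pool.Agent.W5h89.SSQ.Frob

/-!
# The determinant of an operator which is annihilated by a pure polynomial
-/

namespace Pool.Agent.W5h89.SSQ

open Polynomial Module
open Pool.Agent.Y142 (Pure pure_iff)
open Pool.Agent.W5h89.SSP

section roots

variable {K : Type*} [Field K] {n : Type*} [Fintype n] [DecidableEq n]

/-- The roots of the characteristic polynomial in an algebraically closed field are roots of every
polynomial which annihilates the matrix. -/
lemma root_of_annihilated {E : Type*} [Field E] [Algebra K E] (M : Matrix n n K)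
    {P : ℤ[X]} (hP : aeval M P = 0) {y : E} (hy : (M.charpoly.map (algebraMap K E)).IsRoot y) :
    aeval y P = 0 := by
  rcases isEmpty_or_nonempty n with hn | hn
  · rw [Matrix.charpoly, Matrix.det_isEmpty, Polynomial.map_one] at hy
    simp [IsRoot.def] at hy
  set M' : Matrix n n E := M.map (algebraMap K E) with hM'
  rw [← Matrix.charpoly_map] at hy
  have h1 : y ∈ spectrum E M' := Matrix.mem_spectrum_of_isRoot_charpoly hy
  have h2 : aeval M' (P.map (algebraMap ℤ E)) = 0 := by
    rw [aeval_map_algebraMap]
    have h3 : M' = (algebraMap K E).mapMatrix M := rfl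
    have h4 : aeval ((algebraMap K E).mapMatrix M) P = (algebraMap K E).mapMatrix (aeval M P) := by
      have := (map_aeval_eq_aeval_map (R := ℤ) (S := Matrix n n K) (T := ℤ) (U := Matrix n n E)
        (φ := RingHom.id ℤ) (ψ := (algebraMap K E).mapMatrix) (RingHom.ext_int _ _) P M)
      rw [this, Polynomial.map_id]
    rw [h3, h4, hP, map_zero]
  have h3 := spectrum.subset_polynomial_aeval M' (P.map (algebraMap ℤ E)) ⟨y, h1, rfl⟩
  rw [h2] at h3
  have h4 : (P.map (algebraMap ℤ E)).eval y = 0 := by
    have h5 := spectrum.zero_eq (𝕜 := E) (A := Matrix n n E)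
    rw [h5] at h3
    exact h3
  rwa [eval_map_algebraMap] at h4

/-- The determinant of a matrix which is annihilated by a polynomial with complex roots of absolute
value `√c`. -/
lemma pure_det [CharZero K] (M : Matrix n n K) {P : ℤ[X]} (hPm : P.Monic) (hP : aeval M P = 0)
    {c : ℝ} (hc : ∀ z : ℂ, aeval z P = 0 → ‖z‖ ^ 2 = c) :
    Pure (c ^ Fintype.card n) M.det := by
  have hchar : CharZero (AlgebraicClosure K) := charZero_of_injective_algebraMap
    (algebraMap K (AlgebraicClosure K)).injective
  rw [← Pool.Agent.Y142.pure_algebraMap (E := AlgebraicClosure K)]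
  have hsp : (M.charpoly.map (algebraMap K (AlgebraicClosure K))).Splits := IsAlgClosed.splits _
  have hm : M.charpoly.Monic := M.charpoly_monic
  have h1 : algebraMap K (AlgebraicClosure K) M.det =
      (M.charpoly.map (algebraMap K (AlgebraicClosure K))).roots.prod := by
    have h2 := hsp.coeff_zero_eq_prod_roots_of_monic (hm.map _)
    rw [natDegree_map, coeff_map] at h2
    rw [Matrix.det_eq_sign_charpoly_coeff, map_mul, map_pow, map_neg, map_one, h2,
      M.charpoly_natDegree_eq_dim, ← mul_assoc, ← mul_pow]
    simp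
  have h3 : Fintype.card n =
      Multiset.card (M.charpoly.map (algebraMap K (AlgebraicClosure K))).roots := by
    rw [← hsp.natDegree_eq_card_roots, natDegree_map, M.charpoly_natDegree_eq_dim]
  rw [h1, h3]
  apply Pool.Agent.Y142.Pure.multiset_prod
  intro y hy
  exact ⟨P, hPm, root_of_annihilated M hP (mem_roots'.1 hy).2, hc⟩

end roots

variable {K M : Type*} [Field K] [AddCommGroup M] [Module K M]

lemma aeval_restrict {T : M →ₗ[K] M} {V : Submodule K M} (h : ∀ x ∈ V, T x ∈ V) (P : ℤ[X])
    (x : V) : ((aeval (T.restrict h) P x : V) : M) = aeval T P x := by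
  induction P using Polynomial.induction_on' with
  | add p q hp hq => rw [map_add, map_add, LinearMap.add_apply, LinearMap.add_apply,
      Submodule.coe_add, hp, hq]
  | monomial n a =>
    rw [aeval_monomial, aeval_monomial, Module.End.mul_apply, Module.End.mul_apply]
    have h1 : ∀ (k : ℕ) (y : V), (((T.restrict h) ^ k) y : M) = (T ^ k) (y : M) := by
      intro k
      induction k with
      | zero => intro y; rfl
      | succ k ih =>
        intro y
        rw [pow_succ, pow_succ, Module.End.mul_apply, Module.End.mul_apply, ih]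
        rfl
    have h2 : ∀ (y : V), ((algebraMap ℤ (V →ₗ[K] V) a) y : M) = (algebraMap ℤ (M →ₗ[K] M) a) y := by
      intro y
      rw [algebraMap_int_eq, algebraMap_int_eq, eq_intCast, eq_intCast]
      rw [Module.End.intCast_apply, Module.End.intCast_apply]
      rfl
    rw [h2, h1]

lemma pure_detOn [CharZero K] [FiniteDimensional K M] {T : M →ₗ[K] M} {V G : Submodule K M}
    (hVG : V ≤ G) (h : ∀ x ∈ V, T x ∈ V) {q i : ℕ} (hp : PureOn T G q i) :
    Pure ((q : ℝ) ^ (i * finrank K V)) (LinearMap.det (T.restrict h)) := by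
  classical
  obtain ⟨P, hPm, hc, hP⟩ := hp
  let b := Module.finBasis K V
  have h1 : aeval (T.restrict h) P = 0 := by
    apply LinearMap.ext
    intro x
    apply Subtype.ext
    rw [aeval_restrict h, hP _ (hVG x.2)]
    rfl
  have h2 : aeval (LinearMap.toMatrix b b (T.restrict h)) P = 0 := by
    have h3 : LinearMap.toMatrix b b (T.restrict h) = LinearMap.toMatrixAlgEquiv b (T.restrict h) :=
      rfl
    have h4 := (aeval_algHom_apply
      ((LinearMap.toMatrixAlgEquiv b : _ ≃ₐ[K] _).toAlgHom.restrictScalars ℤ) (T.restrict h) P)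
    rw [h1, map_zero] at h4
    rw [h3]
    exact h4
  have h3 := pure_det _ hPm h2 hc
  rw [LinearMap.det_toMatrix, Fintype.card_fin, ← pow_mul] at h3
  exact h3

end Pool.Agent.W5h89.SSQ
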