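import Pool.Agent.W5h89.SSQ.Defs
import Pool.Agent.W5h89.SSQ.LinQ
import Pool.Agent.W5h89.SSQ.Char
import Pool.Agent.W5h89.SSP.Conv

/-!
# The zero-one law over the rational numbers
-/

open CategoryTheory AlgebraicGeometry Filter Topology

universe u v w

namespace Pool.Agent.W5h89.SSQ

open Module
open Pool.Agent.H914 Pool.Agent.H914.VarClass Pool.Agent.H914.VarClass.Obj
  Pool.Agent.H914.WeilCohomology
open Pool.Agent.W5h89
open Pool.Agent.Y133.Half (pw dimOf cycRank)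
open Pool.Agent.Y121.AHS (RatioToZero)
open Pool.Agent.Y142 (Pure)
open Pool.Agent.W569.FM (GF OO FrobAt)

variable {k : Type u} [Field k] {𝒱 : VarClass k} {ops : CycleOps 𝒱}
  {W : WeilCohomology.{u, v} ops}

section general

variable {Γ : Type w} [Group Γ] (A : SSD.GaloisAction W Γ) {X Y : 𝒱.Obj}

/-- A stable subspace for which the square of the determinant is potentially a power of the
cyclotomic character is dual to a line. -/
lemma hasDualLine_of_sq {N i n : ℕ} {f : pw Y N ⟶ X} (hf : Function.Injective (W.map f))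
    {V : Submodule W.K (W.H X)} (hVi : V ≤ W.gr X i) (hV : SSD.IsStable A V)
    (hn : finrank W.K V = n + 1) (Δ : Subgroup Γ) (hΔ : Δ.FiniteIndex)
    (h : ∀ g ∈ Δ, SSD.detOn A hV g ^ 2 = A.c g ^ (i * (n + 1))) : SSD.HasDualLine A Y i hV := by
  let b : Basis (Fin (n + 1)) W.K V := Module.finBasisOfFinrankEq _ _ hn
  have hbi : LinearIndependent W.K fun a => (b a : W.H X) :=
    b.linearIndependent.map' V.subtype (Submodule.ker_subtype V)
  set ψ : W.H (pw X n) := SSD.Psi W X n fun a => (b a : W.H X) with hψ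
  have hψ0 : ψ ≠ 0 := SSD.Psi_ne_zero hbi
  have hψg : ψ ∈ W.gr (pw X n) ((n + 1) * i) := SSD.Psi_gr fun a => hVi (b a).2
  have hψact : ∀ g, A.e g (pw X n) ψ = SSD.detOn A hV g • ψ := by
    intro g
    rw [hψ, SSD.Psi_act]
    exact SSD.Psi_det b ((A.e g X).restrict (hV g))
  obtain ⟨F, hF⟩ := SSD.exists_inj_pw hf n
  obtain ⟨M, ⟨θ⟩⟩ := SSD.exists_iso_pw Y N n
  have hθ : ∀ y : W.H (pw (pw Y N) n), W.map θ.inv y = 0 → y = 0 := by
    intro y hy
    have h1 : W.map θ.hom (W.map θ.inv y) = y := by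
      rw [← W.map_comp, θ.hom_inv_id, W.map_id]
    rw [← h1, hy, map_zero]
  refine ⟨M, (n + 1) * i, (n + 1) * i, W.map θ.inv (W.map F ψ), Δ, hΔ, ?_, ?_, ?_, ?_⟩
  · intro h0
    exact hψ0 (hF ((hθ _ h0).trans (map_zero _).symm))
  · exact W.map_mem _ (W.map_mem _ hψg)
  · rw [hn, two_mul]
  · intro g hg
    refine ⟨SSD.detOn A hV g, ?_, ?_⟩
    · rw [A.nat, A.nat, hψact, map_smul, map_smul]
    · rw [← sq, h g hg, mul_comm]

/-- A positive proportion of algebraic classes excludes the second case of the law. -/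
lemma not_ratio_of_density (Y : 𝒱.Obj) [Nontrivial (W.H Y)]
    (hpos : ∃ ε : ℝ, 0 < ε ∧ ∀ n₀ : ℕ, ∃ n ≥ n₀,
      ε * (SSD.tateDim A (pw Y n) : ℝ) ≤ (cycRank ops (pw Y n) : ℝ))
    (h : RatioToZero (fun n => SSD.tateRank A (pw Y n)) fun n => SSD.tateDim A (pw Y n)) :
    False := by
  obtain ⟨ε, hε, hpos⟩ := hpos
  rw [RatioToZero, Metric.tendsto_atTop] at h
  obtain ⟨n₀, hn₀⟩ := h ε hε
  obtain ⟨n, hn, h1⟩ := hpos n₀
  have h2 := hn₀ n hn
  have h3 : (0 : ℝ) ≤ (SSD.tateRank A (pw Y n) : ℝ) / SSD.tateDim A (pw Y n) := by positivity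
  rw [Real.dist_eq, sub_zero, abs_of_nonneg h3] at h2
  have h4 : 0 < SSD.tateDim A (pw Y n) := by
    have h5 : Nontrivial (W.H (pw Y n)) := by
      apply Module.nontrivial_of_finrank_pos (R := W.K)
      rw [Pool.Agent.Y133.Half.finrank_pw]
      exact Nat.pow_pos Module.finrank_pos
    have h6 : (1 : W.H (pw Y n)) ∈ SSD.tateSpan A (pw Y n) := (SSD.tPred A).sys.one (pw Y n)
    have h7 : Nontrivial (SSD.tateSpan A (pw Y n)) := ⟨⟨⟨1, h6⟩, 0, fun h => by
      exact one_ne_zero (congrArg Subtype.val h)⟩⟩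
    exact Module.finrank_pos
  have h5 : (0 : ℝ) < SSD.tateDim A (pw Y n) := by exact_mod_cast h4
  rw [div_lt_iff₀ h5] at h2
  have h6 : (cycRank ops (pw Y n) : ℝ) ≤ SSD.tateRank A (pw Y n) := by
    exact_mod_cast SSD.cycRank_le A (pw Y n)
  linarith

/-- The determinant of a stable subspace as a character. -/
noncomputable def detHom {V : Submodule W.K (W.H X)} (hV : SSD.IsStable A V) : Γ →* W.K where
  toFun := SSD.detOn A hV
  map_one' := by
    have h1 : (A.e 1 X).restrict (hV 1) = LinearMap.id := by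
      apply LinearMap.ext
      intro x
      apply Subtype.ext
      exact A.one X x
    rw [SSD.detOn, h1, LinearMap.det_id]
  map_mul' g h := by
    have h1 : (A.e (g * h) X).restrict (hV (g * h)) =
        (A.e g X).restrict (hV g) ∘ₗ (A.e h X).restrict (hV h) := by
      apply LinearMap.ext
      intro x
      apply Subtype.ext
      exact A.mul g h X x
    rw [SSD.detOn, h1, LinearMap.det_comp]
    rfl

end general

section rational

variable {Γ : Type w} [Group Γ] {ℓ : ℕ} [Fact ℓ.Prime] {ι : W.K ≃+* ℚ_[ℓ]}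
  {θ : Gal(AlgebraicClosure ℚ/ℚ) →* Γ} {A : SSP.GaloisAction W.toWeilData Γ} {X Y : 𝒱.Obj}

lemma continuous_det (hA : IsEllAdic ι θ A) {V : Submodule W.K (W.H X)}
    (hV : SSD.IsStable (SSP.toG A) V) :
    Continuous fun g => ι (SSD.detOn (SSP.toG A) hV (θ g)) := by
  classical
  let b := Module.finBasis W.K V
  have h1 : (fun g => ι (SSD.detOn (SSP.toG A) hV (θ g))) = fun g =>
      ((LinearMap.toMatrix b b (((SSP.toG A).e (θ g) X).restrict (hV (θ g)))).map ι).det := by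
    funext g
    rw [SSD.detOn, ← LinearMap.det_toMatrix b]
    exact ι.toRingHom.map_det _
  rw [h1]
  apply Continuous.matrix_det
  apply continuous_matrix
  intro i j
  obtain ⟨φ, hφ⟩ := LinearMap.exists_extend (b.coord i)
  refine (hA.cont X φ (b j : W.H X)).congr fun g => ?_
  rw [Matrix.map_apply, LinearMap.toMatrix_apply]
  have h2 : φ ((((SSP.toG A).e (θ g) X).restrict (hV (θ g)) (b j) : V) : W.H X) =
      b.coord i (((SSP.toG A).e (θ g) X).restrict (hV (θ g)) (b j)) := by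
    rw [← hφ]
    rfl
  exact congrArg ι h2

lemma pure_map {K : Type*} [Field K] (j : K →+* ℚ_[ℓ]) {c : ℝ} {y : K} (h : Pure c y) :
    Pure c (j y) := by
  obtain ⟨P, h1, h2, h3⟩ := h
  refine ⟨P, h1, ?_, h3⟩
  have h4 := Polynomial.hom_eval₂ P (algebraMap ℤ K) j y
  rw [← Polynomial.aeval_def, h2, map_zero] at h4
  rw [Polynomial.aeval_def, h4]
  congr 1
  exact RingHom.ext_int _ _

/-- The square of the determinant of a stable subspace is potentially a power of the cyclotomic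
character. -/
lemma exists_sq (hA : IsEllAdic ι θ A) {i : ℕ} {V : Submodule W.K (W.H X)} (hVi : V ≤ W.gr X i)
    (hV : SSD.IsStable (SSP.toG A) V) :
    ∃ Δ : Subgroup Γ, Δ.FiniteIndex ∧ ∀ g ∈ Δ,
      SSD.detOn (SSP.toG A) hV g ^ 2 = A.c g ^ (i * finrank W.K V) := by
  obtain ⟨B, hB⟩ := hA.frob X i
  let δ : GF ℚ →* ℚ_[ℓ]ˣ :=
    (((ι.toRingHom : W.K →* ℚ_[ℓ]).comp (detHom (SSP.toG A) hV)).comp θ).toHomUnits
  let c' : Γ →* W.K :=
    { toFun := A.c
      map_one' := by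
        have h1 := hA.mul 1 1
        rw [mul_one] at h1
        exact (mul_eq_left₀ (A.ne 1)).1 h1.symm
      map_mul' := hA.mul }
  let c : GF ℚ →* ℚ_[ℓ]ˣ := (((ι.toRingHom : W.K →* ℚ_[ℓ]).comp c').comp θ).toHomUnits
  obtain ⟨Δ, hΔ, h⟩ := exists_subgroup δ c (continuous_det hA hV) hA.cont_c
    (D := i * finrank W.K V) (B := B) (by
      intro q hBq hq P σ hP hqP hσ
      obtain ⟨h1, h2⟩ := hB q σ hBq hq ⟨P, hP, hqP, hσ⟩
      exact ⟨(congrArg ι h1).trans (map_natCast ι q),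
        pure_map (ι.toRingHom) (pure_detOn hVi (hV (θ σ⁻¹)) h2)⟩)
  refine ⟨Subgroup.map θ Δ, ⟨?_⟩, ?_⟩
  · have h1 : (Δ ⊔ θ.ker).FiniteIndex := Subgroup.finiteIndex_of_le le_sup_left
    have h2 := hA.range
    have h3 := Subgroup.index_map Δ θ
    exact fun h0 => mul_ne_zero h1.index_ne_zero h2.index_ne_zero (h3.symm.trans h0)
  · rintro _ ⟨σ, hσ, rfl⟩
    apply ι.injective
    rw [map_pow, map_pow]
    exact congrArg Units.val (h σ hσ)

theorem semisimple_of_splits (hA : IsEllAdic ι θ A) {N : ℕ} {f : pw Y N ⟶ X}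
    (hf : SSP.InjPull W.toWeilData f) {i : ℕ} (h : SSP.Splits A X Y i) :
    SSP.SemisimpleIn A X i := by
  intro V hVi hV
  rcases Nat.eq_zero_or_pos (finrank W.K V) with h0 | hpos
  · have h1 : V = ⊥ := Submodule.finrank_eq_zero.1 h0
    refine ⟨W.gr X i, fun g x hx => (SSP.toG A).gr g _ i x hx, ?_, ?_⟩
    · rw [h1, bot_inf_eq]
    · rw [h1, bot_sup_eq]
  obtain ⟨n, hn⟩ : ∃ n, finrank W.K V = n + 1 := ⟨finrank W.K V - 1, by omega⟩
  have hV' : SSD.IsStable (SSP.toG A) V := hV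
  obtain ⟨Δ, hΔ, hsq⟩ := exists_sq hA hVi hV'
  rw [hn] at hsq
  exact h V hVi hV ((SSP.hasDualLine_iff A Y i hV).2
    (hasDualLine_of_sq (SSP.toG A) (SSP.inj_of hf) hVi hV' hn Δ hΔ hsq))

theorem semisimple_of_density (hA : IsEllAdic ι θ A) {N i : ℕ} {f : pw Y N ⟶ X}
    (hf : SSP.InjPull W.toWeilData f)
    (hpos : ∃ ε : ℝ, 0 < ε ∧ ∀ n₀ : ℕ, ∃ n ≥ n₀,
      ε * (SSP.tateDim A (pw Y n) : ℝ) ≤ (cycRank ops (pw Y n) : ℝ)) : SSP.SemisimpleIn A X i := by
  intro V hVi hV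
  rcases Nat.eq_zero_or_pos (finrank W.K V) with h0 | hpos'
  · have h1 : V = ⊥ := Submodule.finrank_eq_zero.1 h0
    refine ⟨W.gr X i, fun g x hx => (SSP.toG A).gr g _ i x hx, ?_, ?_⟩
    · rw [h1, bot_inf_eq]
    · rw [h1, bot_sup_eq]
  rcases SSP.law A X Y N i f hf with h1 | h1
  · exact semisimple_of_splits hA hf h1.2 V hVi hV
  exfalso
  obtain ⟨x, hx⟩ : ∃ x : V, x ≠ 0 := by
    have : Nontrivial V := Module.nontrivial_of_finrank_pos hpos'
    exact exists_ne 0
  have hYn : Nontrivial (W.H Y) := by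
    rcases subsingleton_or_nontrivial (W.H Y) with hs | hn
    · exfalso
      have h1 : finrank W.K (W.H (pw Y N)) = 0 := by
        rw [Pool.Agent.Y133.Half.finrank_pw, Module.finrank_zero_of_subsingleton,
          zero_pow (Nat.succ_ne_zero N)]
      have h2 : Subsingleton (W.H (pw Y N)) := Module.finrank_zero_iff.1 h1
      exact hx (Subtype.ext (hf x (Subsingleton.elim _ _)))
    · exact hn
  exact not_ratio_of_density (SSP.toG A) Y hpos (by
    have h3 : (fun n => SSP.tateRank A (pw Y n)) = fun n => SSD.tateRank (SSP.toG A) (pw Y n) := by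
      funext n
      exact SSP.tateRank_eq A _
    rw [h3] at h1
    exact h1)

theorem law_full (A : SSP.GaloisAction W.toWeilData Γ) (X Y : 𝒱.Obj) (N i : ℕ) (f : pw Y N ⟶ X)
    (hf : SSP.InjPull W.toWeilData f) :
    (((∀ n, SSP.tateRank A (pw Y n) = SSP.tateDim A (pw Y n)) ∧ SSP.Splits A X Y i ∧
        (OverQ A → SSP.SemisimpleIn A X i)) ∨
      RatioToZero (fun n => SSP.tateRank A (pw Y n)) fun n => SSP.tateDim A (pw Y n)) ∧
    ((SSP.AllDual A X Y i ∨ OverQ A) → (∃ ε : ℝ, 0 < ε ∧ ∀ n₀ : ℕ, ∃ n ≥ n₀,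
        ε * (SSP.tateDim A (pw Y n) : ℝ) ≤ (cycRank ops (pw Y n) : ℝ)) →
      SSP.SemisimpleIn A X i) := by
  constructor
  · rcases SSP.law A X Y N i f hf with h | h
    · exact Or.inl ⟨h.1, h.2, fun ⟨ℓ, _, ι, θ, hA⟩ => semisimple_of_splits hA hf h.2⟩
    · exact Or.inr h
  · rintro (h | ⟨ℓ, _, ι, θ, hA⟩) hpos
    · exact SSP.semisimple_of_density A X Y N i f hf h hpos
    · exact semisimple_of_density hA hf hpos

end rational

end Pool.Agent.W5h89.SSQ
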