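import Pool.Agent.W5h89.SSP.Defs
import Pool.Agent.W5h89.SSQ.Frob

/-!
# Actions of the Galois group of the rational numbers on `ℓ`-adic cohomology: definitions
-/

open CategoryTheory AlgebraicGeometry

universe u v w

namespace Pool.Agent.W5h89.SSQ

open Pool.Agent.H914
open Pool.Agent.W5h89.SSP

variable {k : Type u} [Field k] {𝒱 : VarClass k} {D : WeilData.{u, v} 𝒱} {Γ : Type w} [Group Γ]

/-- The action `A` has the following properties of the action on `ℓ`-adic cohomology of varieties
over `ℚ`; there `θ` is an isomorphism of the absolute Galois group of `ℚ` with `Γ`, in general it is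
a homomorphism with image of finite index. The coefficient field is identified with the field of
`ℓ`-adic numbers by `ι`. The character `c` (by which a Frobenius element acts on the Tate twist) and
the action are continuous. For every variety `X` and all large prime numbers `q`, the inverse `σ⁻¹`
of a Frobenius element `σ` at `q` satisfies `c σ⁻¹ = q` and is pure of weight `i` on `H^i(X)`
(Deligne): it is annihilated by a monic polynomial with integral coefficients all of whose complex
roots have absolute value `√(q ^ i)`. -/
structure IsEllAdic {ℓ : ℕ} [Fact ℓ.Prime] (ι : D.K ≃+* ℚ_[ℓ])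
    (θ : Gal(AlgebraicClosure ℚ/ℚ) →* Γ) (A : GaloisAction D Γ) : Prop where
  range : θ.range.FiniteIndex
  mul : ∀ g h, A.c (g * h) = A.c g * A.c h
  cont_c : Continuous fun g => ι (A.c (θ g))
  cont : ∀ X, ContinuousFor ι fun g => rep A X (θ g)
  frob : ∀ X i, ∃ B, ∀ q σ, B < q → q.Prime → IsFrobenius q σ →
    A.c (θ σ⁻¹) = q ∧ PureOn (rep A X (θ σ⁻¹)) (D.gr X i) q i

/-- The action is the action on `ℓ`-adic cohomology of varieties over `ℚ` for some prime number `ℓ`
(or it has the formal properties of this action). -/
def OverQ (A : GaloisAction D Γ) : Prop :=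
  ∃ (ℓ : ℕ) (_ : Fact ℓ.Prime) (ι : D.K ≃+* ℚ_[ℓ]) (θ : Gal(AlgebraicClosure ℚ/ℚ) →* Γ),
    IsEllAdic ι θ A

end Pool.Agent.W5h89.SSQ
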